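import Pool.Agent.H.MP_ef40db_lc.Defs
import Pool.Agent.Lib.lead.CXNP

namespace Pool.Agent.H.MP_ef40db_lc

open Pool.Agent.Lib.CX Inst

abbrev Pr := List (ℕ × ℕ)

instance (I : Inst) (s p q) : Decidable (I.sp s p q) := by unfold sp; infer_instance
instance (I : Inst) (s p q) : Decidable (I.lp s p q) := by unfold Inst.lp; infer_instance
instance (I : Inst) (M s p) : Decidable (I.Blocks M s p) := by unfold Blocks; infer_instance
instance (I : Inst) (M) : Decidable (I.Matching M) := by unfold Matching; infer_instance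

def best (I : Inst) (E : Pr) : Pr := E.filter fun e => ∀ e' ∈ E, e'.1 = e.1 → ¬I.sp e.1 e'.2 e.2

def wants (I : Inst) (E : Pr) (s p : ℕ) : Prop := ∀ e ∈ E, e.1 = s → I.sp s p e.2
instance (I : Inst) (E s p) : Decidable (wants I E s p) := by unfold wants; infer_instance

def del (I : Inst) (E N : Pr) (e : ℕ × ℕ) : Prop :=
  I.cap e.2 ≤ (N.countP fun x => x.2 = e.2 ∧ I.lp (I.lec e.2) x.1 e.1) ∨
  (∃ s < I.1.length, e.2 ∈ I.acc s ∧ wants I E s e.2 ∧ I.lp (I.lec e.2) s e.1) ∨
  ((∀ p < I.2.1.length, np N p ≤ I.cap p) ∧ e ∈ N ∧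
    (∀ x ∈ N, I.lec x.2 = I.lec e.2 → x.1 = e.1 ∨ I.lp (I.lec e.2) x.1 e.1) ∧
    (I.lcap (I.lec e.2) < I.nl N (I.lec e.2) ∨ ((∀ l < I.2.2.length, I.nl N l ≤ I.lcap l) ∧
      ((∃ p < I.2.1.length, I.lec p = I.lec e.2 ∧ np N p < I.low p) ∨
        ∃ s < I.1.length, ∃ p ∈ I.acc s, I.lec p = I.lec e.2 ∧ np N p < I.cap p ∧ wants I E s p ∧
          (I.nl N (I.lec e.2) < I.lcap (I.lec e.2) ∨ s = e.1 ∨ I.lp (I.lec e.2) s e.1)))))

instance (I : Inst) (E N e) : Decidable (del I E N e) := by unfold del; infer_instance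

def stp (I : Inst) (E : Pr) : Pr := E.filter fun e => ¬del I E (best I E) e

def all (I : Inst) : Pr := ((List.range I.1.length).flatMap fun s => (I.acc s).map fun p => (s, p)).dedup

def good (I : Inst) (M : Pr) : Prop :=
  I.Matching M ∧ (∀ s < I.1.length, ∀ p ∈ I.acc s, ¬I.Blocks M s p) ∧ ∀ p < I.2.1.length, I.low p ≤ np M p
instance (I : Inst) (M) : Decidable (good I M) := by unfold good; infer_instance

def out (I : Inst) (M : Pr) : Option Pr := if good I M then some M else none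

def alg (I : Inst) : Option Pr := out I (best I ((stp I)^[(all I).length] (all I)))

theorem acc_lt {I : Inst} {s p} (h : p ∈ I.acc s) : s < I.1.length := by
  by_contra e
  simp [acc, List.getD_eq_getElem?_getD, List.getElem?_eq_none (not_lt.1 e)] at h

theorem good_iff {I : Inst} {M} : good I M ↔ I.Good M :=
  and_congr_right fun _ => and_congr_left fun _ => ⟨fun h s p b => h s (acc_lt b.2.1) p b.2.1 b, fun h s _ p _ => h s p⟩

theorem mem_all {I : Inst} {e : ℕ × ℕ} : e ∈ all I ↔ e.2 ∈ I.acc e.1 := by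
  simp only [all, List.mem_dedup, List.mem_flatMap, List.mem_range, List.mem_map]
  exact ⟨by rintro ⟨s, -, p, h, rfl⟩; exact h, fun h => ⟨_, acc_lt h, _, h, rfl⟩⟩

section
variable {α : Type} [Enc α] {I : α → Inst} {s p q : α → ℕ} {M N : α → Pr}
@[fun_prop] theorem pt_acc (h : PT I) (h1 : PT s) : PT fun a => (I a).acc (s a) := by unfold acc; fun_prop
@[fun_prop] theorem pt_lec (h : PT I) (h1 : PT s) : PT fun a => (I a).lec (s a) := by unfold lec; fun_prop
@[fun_prop] theorem pt_cap (h : PT I) (h1 : PT s) : PT fun a => (I a).cap (s a) := by unfold cap; fun_prop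
@[fun_prop] theorem pt_low (h : PT I) (h1 : PT s) : PT fun a => (I a).low (s a) := by unfold low; fun_prop
@[fun_prop] theorem pt_lcap (h : PT I) (h1 : PT s) : PT fun a => (I a).lcap (s a) := by unfold lcap; fun_prop
@[fun_prop] theorem pt_lpref (h : PT I) (h1 : PT s) : PT fun a => (I a).lpref (s a) := by unfold lpref; fun_prop
@[fun_prop] theorem pt_np (h : PT M) (h1 : PT s) : PT fun a => np (M a) (s a) := by unfold np; fun_prop
@[fun_prop] theorem pt_nl (h0 : PT I) (h : PT M) (h1 : PT s) : PT fun a => (I a).nl (M a) (s a) := by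
  unfold nl; fun_prop
@[fun_prop] theorem pt_sp {k : ∀ a, Decidable ((I a).sp (s a) (p a) (q a))} (h : PT I) (h1 : PT s) (h2 : PT p) (h3 : PT q) :
    PT fun a => @decide ((I a).sp (s a) (p a) (q a)) (k a) :=
  (show PT fun a => decide (((I a).acc (s a)).idxOf (p a) < ((I a).acc (s a)).idxOf (q a)) by fun_prop).congr
    fun _ => decide_eq_decide.2 Iff.rfl
@[fun_prop] theorem pt_lp {k : ∀ a, Decidable ((I a).lp (s a) (p a) (q a))} (h : PT I) (h1 : PT s) (h2 : PT p) (h3 : PT q) :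
    PT fun a => @decide ((I a).lp (s a) (p a) (q a)) (k a) :=
  (show PT fun a => decide (((I a).lpref (s a)).idxOf (p a) < ((I a).lpref (s a)).idxOf (q a)) by fun_prop).congr
    fun _ => decide_eq_decide.2 Iff.rfl
@[fun_prop] theorem pt_wants {k : ∀ a, Decidable (wants (I a) (M a) (s a) (p a))} (h : PT I) (h0 : PT M) (h1 : PT s) (h2 : PT p) :
    PT fun a => @decide (wants (I a) (M a) (s a) (p a)) (k a) :=
  (show PT fun a => decide (∀ e ∈ M a, e.1 = s a → (I a).sp (s a) (p a) e.2) by fun_prop).congr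
    fun _ => decide_eq_decide.2 Iff.rfl
@[fun_prop] theorem pt_best (h : PT I) (h0 : PT M) : PT fun a => best (I a) (M a) := by unfold best; fun_prop
end

set_option synthInstance.maxSize 2000 in
theorem pt_del : PT fun a : Inst × Pr × Pr × ℕ × ℕ => decide (del a.1 a.2.1 a.2.2.1 a.2.2.2) := by
  unfold del; fun_prop

theorem pt_stp : PT fun a : Inst × Pr => stp a.1 a.2 :=
  PT.filter (F := fun (a : Inst × Pr) e => decide (¬del a.1 a.2 (best a.1 a.2) e))
    (PT.decide_not (pt_del.comp (g := fun p : (Inst × Pr) × ℕ × ℕ => (p.1.1, p.1.2, best p.1.1 p.1.2, p.2))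
      (by fun_prop))) (by fun_prop)

set_option synthInstance.maxSize 2000 in
theorem pt_out : PT fun a : Inst × Pr => out a.1 a.2 := by
  unfold out good Matching Blocks; fun_prop

theorem it_sub (I : Inst) (E : Pr) (k : ℕ) : ((stp I)^[k] E).Sublist E := by
  induction k with
  | zero => simp
  | succ k ih => rw [Function.iterate_succ_apply']; exact List.filter_sublist.trans ih

theorem pt_alg : PT alg := by
  have h : PT all := by unfold all; fun_prop
  exact pt_out.comp (PT.id.pair (pt_best PT.id (PT.iterate (B := fun I => size (all I)) pt_stp h (by fun_prop)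
    (by fun_prop) (by fun_prop) fun I k _ => size_sublist (it_sub I _ k))))

theorem it_fix (I : Inst) (E : Pr) : stp I ((stp I)^[E.length] E) = (stp I)^[E.length] E := by
  have : ∀ k, stp I ((stp I)^[k] E) = (stp I)^[k] E ∨ ((stp I)^[k] E).length + k ≤ E.length := fun k => by
    induction k with
    | zero => simp
    | succ k ih =>
      rw [Function.iterate_succ_apply']
      by_cases e : stp I ((stp I)^[k] E) = (stp I)^[k] E
      · left; rw [e, e]
      · have h : (stp I ((stp I)^[k] E)).Sublist ((stp I)^[k] E) := List.filter_sublist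
        have := lt_of_le_of_ne h.length_le fun e' => e (h.eq_of_length e')
        have := ih.resolve_left e
        omega
  rcases this E.length with h | h
  · exact h
  · rw [List.length_eq_zero_iff.1 (show ((stp I)^[E.length] E).length = 0 by omega)]; rfl

theorem ex_new {M N : Pr} {q r : ℕ × ℕ → Bool} (hN : N.Nodup) (h : M.countP r < N.countP q) :
    ∃ e ∈ N, q e = true ∧ (e ∈ M → r e = false) := by
  by_contra! H
  rw [List.countP_eq_length_filter, List.countP_eq_length_filter] at h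
  refine absurd ((hN.filter _).length_le_of_subset fun e he => ?_) h.not_ge
  obtain ⟨a, b⟩ := List.mem_filter.1 he
  exact List.mem_filter.2 ⟨(H e a b).1, by simpa using (H e a b).2⟩

theorem nl_sum (I : Inst) (M : Pr) (h : ∀ e ∈ M, e.2 < I.2.1.length) (l) :
    I.nl M l = ∑ p ∈ (Finset.range I.2.1.length).filter (I.lec · = l), np M p := by
  induction M with
  | nil => simp [nl, np]
  | cons e M ih =>
    have := ih fun x hx => h x (List.mem_cons_of_mem _ hx)
    have h1 := h e List.mem_cons_self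
    simp only [nl, np, List.countP_cons, Finset.sum_add_distrib, decide_eq_true_eq] at this ⊢
    rw [this, Finset.sum_ite_eq]
    simp [h1]

theorem len_sum (I : Inst) (M : Pr) (h : ∀ e ∈ M, I.lec e.2 < I.2.2.length) :
    M.length = ∑ l ∈ Finset.range I.2.2.length, I.nl M l := by
  induction M with
  | nil => simp [nl]
  | cons e M ih =>
    have := ih fun x hx => h x (List.mem_cons_of_mem _ hx)
    have h1 := h e List.mem_cons_self
    simp only [nl, List.countP_cons, Finset.sum_add_distrib, decide_eq_true_eq, List.length_cons] at this ⊢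
    rw [this, Finset.sum_ite_eq]
    simp [h1]

theorem ex_min {α : Type} (l : List α) (f : α → ℕ) (q : α → Prop) (h : ∃ x ∈ l, q x) :
    ∃ x ∈ l, q x ∧ ∀ y ∈ l, q y → f x ≤ f y := by
  classical
  obtain ⟨x, h1, h2⟩ := Finset.exists_min_image (l.toFinset.filter q) f (by simpa [Finset.Nonempty] using h)
  exact ⟨x, by simpa using And.intro (Finset.mem_filter.1 h1).1 (Finset.mem_filter.1 h1).2 |>.1,
    (Finset.mem_filter.1 h1).2, fun y a b => h2 y (by simp [a, b])⟩

theorem ex_max {α : Type} (l : List α) (f : α → ℕ) (q : α → Prop) (h : ∃ x ∈ l, q x) :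
    ∃ x ∈ l, q x ∧ ∀ y ∈ l, q y → f y ≤ f x := by
  classical
  obtain ⟨x, h1, h2⟩ := Finset.exists_max_image (l.toFinset.filter q) f (by simpa [Finset.Nonempty] using h)
  exact ⟨x, by simpa using And.intro (Finset.mem_filter.1 h1).1 (Finset.mem_filter.1 h1).2 |>.1,
    (Finset.mem_filter.1 h1).2, fun y a b => h2 y (by simp [a, b])⟩

variable {I : Inst} {E M : Pr}

theorem mem_best {e} : e ∈ best I E ↔ e ∈ E ∧ ∀ e' ∈ E, e'.1 = e.1 → ¬I.sp e.1 e'.2 e.2 := by
  simp only [best, List.mem_filter, decide_eq_true_eq]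

theorem best_sp (hE : ∀ e ∈ E, e.2 ∈ I.acc e.1) {e} (h : e ∈ best I E) {x} (hx : x ∈ E) (h1 : x.1 = e.1) (h2 : x ≠ e) :
    I.sp e.1 e.2 x.2 := by
  obtain ⟨a, b⟩ := mem_best.1 h
  refine lt_of_le_of_ne (not_lt.1 (b x hx h1)) fun c => h2 (Prod.ext h1 ?_)
  exact ((List.idxOf_inj (hE e a)).1 c).symm

theorem best_nd (hE : ∀ e ∈ E, e.2 ∈ I.acc e.1) (hn : E.Nodup) : ((best I E).map Prod.fst).Nodup := by
  refine (List.nodup_map_iff_inj_on (hn.filter _)).2 fun x hx y hy e => ?_
  by_contra c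
  exact (mem_best.1 hx).2 y (mem_best.1 hy).1 e.symm (e ▸ best_sp hE hy (mem_best.1 hx).1 e c)

theorem best_ex {e} (h : e ∈ E) : ∃ x ∈ best I E, x.1 = e.1 := by
  obtain ⟨x, a, b, c⟩ := ex_min E (fun x => (I.acc e.1).idxOf x.2) (fun x => x.1 = e.1) ⟨e, h, rfl⟩
  exact ⟨x, mem_best.2 ⟨a, fun y hy d => not_lt.2 (b ▸ c y hy (d.trans b))⟩, b⟩

theorem blk (hV : I.Valid) (hM : I.Good M) {s p} (h1 : p ∈ I.acc s) (h2 : wants I M s p) :
    (np M p < I.cap p → I.nl M (I.lec p) = I.lcap (I.lec p) ∧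
      ∀ e ∈ M, I.lec e.2 = I.lec p → e.1 ≠ s ∧ ¬I.lp (I.lec p) s e.1) ∧
    ∀ e ∈ M, e.2 = p → ¬I.lp (I.lec p) s e.1 := by
  have n : (s, p) ∉ M := fun h => lt_irrefl _ (h2 _ h rfl)
  have p1 := (hV.2 s p h1).1
  have c1 := hM.1.2.2.1 p p1
  have c2 := hM.1.2.2.2 _ (hV.1 p p1)
  have b := hM.2.1 s p
  have : np M p < I.cap p → I.nl M (I.lec p) = I.lcap (I.lec p) ∧
      ∀ e ∈ M, I.lec e.2 = I.lec p → e.1 ≠ s ∧ ¬I.lp (I.lec p) s e.1 := fun h => by
    have := c2.eq_or_lt.resolve_right fun a => b ⟨n, h1, h2, .inl ⟨h, a⟩⟩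
    exact ⟨this, fun e he a => not_or.1 fun d => b ⟨n, h1, h2, .inr (.inl ⟨h, this, e, he, a, d⟩)⟩⟩
  refine ⟨this, fun e he a d => ?_⟩
  rcases c1.lt_or_eq with h | h
  · exact ((this h).2 e he (by rw [a])).2 d
  · exact b ⟨n, h1, h2, .inr (.inr ⟨h, e, he, a, d⟩)⟩

section
variable (hV : I.Valid) (hM : I.Good M) (hE : ∀ e ∈ E, e.2 ∈ I.acc e.1) (hn : E.Nodup) (hs : M ⊆ E)
include hV hM hE hn hs

theorem key {p} (h : np M p < np (best I E) p) (h2 : np (best I E) p ≤ I.cap p) :
    I.nl M (I.lec p) = I.lcap (I.lec p) ∧ ∃ x ∈ best I E, x.2 = p ∧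
      ∀ e ∈ M, I.lec e.2 = I.lec p → e.1 ≠ x.1 ∧ ¬I.lp (I.lec p) x.1 e.1 := by
  obtain ⟨x, a, b, c⟩ := ex_new (hn.filter _) h
  obtain rfl : x.2 = p := by simpa using b
  have n : x ∉ M := by simpa using c
  have := (blk hV hM (hE x (mem_best.1 a).1) fun y hy d => best_sp hE a (hs hy) d fun f => n (f ▸ hy)).1
    (h.trans_le h2)
  exact ⟨this.1, x, a, rfl, this.2⟩

theorem ex_p {l} (h : I.nl M l < I.nl (best I E) l ∨
    (I.nl M l ≤ I.nl (best I E) l ∧ ∃ p < I.2.1.length, I.lec p = l ∧ np (best I E) p < np M p)) :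
    ∃ p < I.2.1.length, I.lec p = l ∧ np M p < np (best I E) p := by
  by_contra! H
  rw [nl_sum I M fun e he => (hV.2 _ _ (hE e (hs he))).1,
    nl_sum I (best I E) fun e he => (hV.2 _ _ (hE e (mem_best.1 he).1)).1] at h
  have H' : ∀ p ∈ (Finset.range I.2.1.length).filter (I.lec · = l), np (best I E) p ≤ np M p := by simpa using H
  rcases h with h | ⟨h, p, a, b, c⟩
  · exact absurd (Finset.sum_le_sum H') h.not_ge
  · exact absurd (Finset.sum_lt_sum H' ⟨p, by simp [a, b], c⟩) h.not_gt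

theorem cnt (c1 : ∀ p < I.2.1.length, np (best I E) p ≤ I.cap p) (c2 : ∀ l < I.2.2.length, I.nl (best I E) l ≤ I.lcap l) :
    ∀ l < I.2.2.length, I.nl M l = I.nl (best I E) l := by
  have h1 : ∀ l ∈ Finset.range I.2.2.length, I.nl (best I E) l ≤ I.nl M l := fun l hl => by
    by_contra! h
    obtain ⟨p, a, rfl, b⟩ := ex_p hV hM hE hn hs (.inl h)
    have := (key hV hM hE hn hs b (c1 p a)).1
    have := c2 _ (Finset.mem_range.1 hl)
    omega
  have h2 : M.length ≤ (best I E).length := by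
    have := hM.1.2.1.length_le_of_subset (l₂ := (best I E).map Prod.fst) fun s h => by
      obtain ⟨e, he, rfl⟩ := List.mem_map.1 h
      obtain ⟨x, a, b⟩ := best_ex (I := I) (hs he)
      exact List.mem_map.2 ⟨x, a, b⟩
    simpa using this
  rw [len_sum I M fun e he => hV.1 _ (hV.2 _ _ (hE e (hs he))).1,
    len_sum I (best I E) fun e he => hV.1 _ (hV.2 _ _ (hE e (mem_best.1 he).1)).1] at h2
  exact fun l hl => ((Finset.sum_eq_sum_iff_of_le h1).1 (le_antisymm (Finset.sum_le_sum h1) h2) l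
    (Finset.mem_range.2 hl)).symm

theorem safe {e} (he : e ∈ M) : ¬del I E (best I E) e := by
  have p1 := (hV.2 _ _ (hE e (hs he))).1
  rintro (h | ⟨s, -, a, b, c⟩ | ⟨c1, a, b, h⟩)
  · have h1 := hM.1.2.2.1 _ p1
    have h2 : M.countP (fun x => x.2 = e.2 ∧ x ≠ e) < np M e.2 := by
      obtain ⟨u, v, rfl⟩ := List.append_of_mem he
      have := List.countP_mono_left (l := u) (p := fun x => x.2 = e.2 ∧ x ≠ e) (q := fun x => x.2 = e.2)
        (by simp; tauto)
      have := List.countP_mono_left (l := v) (p := fun x => x.2 = e.2 ∧ x ≠ e) (q := fun x => x.2 = e.2)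
        (by simp; tauto)
      simp only [np, List.countP_append, List.countP_cons] at *
      simp at *; omega
    obtain ⟨x, a, b, c⟩ := ex_new (hn.filter _) (h2.trans_le (h1.trans h))
    simp only [decide_eq_true_eq] at b
    have n : x ∉ M := fun d => by
      have : x = e := by simpa [b.1] using c d
      exact lt_irrefl _ (this ▸ b.2)
    exact (blk hV hM (hE x (mem_best.1 a).1) fun y hy d => best_sp hE a (hs hy) d fun f => n (f ▸ hy)).2 e he
      b.1.symm (b.1 ▸ b.2)
  · exact (blk hV hM a fun y hy => b y (hs hy)).2 e he rfl c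
  have fin : ¬∃ p < I.2.1.length, I.lec p = I.lec e.2 ∧ np M p < np (best I E) p := by
    rintro ⟨p, p1, p2, p3⟩
    obtain ⟨-, x, x1, rfl, x2⟩ := key hV hM hE hn hs p3 (c1 p p1)
    have := x2 e he p2.symm
    rcases b x x1 p2 with d | d
    · exact this.1 d.symm
    · exact this.2 (p2 ▸ d)
  rcases h with h | ⟨c2, h⟩
  · exact fin (ex_p hV hM hE hn hs (.inl ((hM.1.2.2.2 _ (hV.1 _ p1)).trans_lt h)))
  have c3 := cnt hV hM hE hn hs c1 c2 _ (hV.1 _ p1)
  rcases h with ⟨p, p1, p2, p3⟩ | ⟨s, -, p, s1, p2, p3, s2, h⟩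
  · exact fin (ex_p hV hM hE hn hs (.inr ⟨c3.le, p, p1, p2, p3.trans_le (hM.2.2 p p1)⟩))
  · by_cases d : np M p < I.cap p
    · obtain ⟨d1, d2⟩ := (blk hV hM s1 fun y hy => s2 y (hs hy)).1 d
      have := d2 e he p2.symm
      rw [p2] at d1 this
      rcases h with h | h | h
      · omega
      · exact this.1 h.symm
      · exact this.2 h
    · exact fin (ex_p hV hM hE hn hs (.inr ⟨c3.le, p, (hV.2 _ _ s1).1, p2, by omega⟩))

theorem fix_good (hf : ∀ e ∈ E, ¬del I E (best I E) e) : I.Good (best I E) := by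
  have sub : ∀ {e}, e ∈ best I E → e ∈ E := fun h => (mem_best.1 h).1
  have nd := best_nd hE hn
  have worst : ∀ (l) (q : ℕ × ℕ → Prop), (∀ x, q x → I.lec x.2 = l) → (∃ x ∈ best I E, q x) → ∃ e ∈ best I E, q e ∧
      ∀ x ∈ best I E, q x → x.1 = e.1 ∨ I.lp l x.1 e.1 := fun l q hq h => by
    obtain ⟨e, a, b, c⟩ := ex_max _ (fun x => (I.lpref l).idxOf x.1) q h
    refine ⟨e, a, b, fun x d f => (c x d f).eq_or_lt.imp_left fun g => (List.idxOf_inj ?_).1 g⟩
    exact hq x f ▸ (hV.2 _ _ (hE x (sub d))).2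
  have c1 : ∀ p < I.2.1.length, np (best I E) p ≤ I.cap p := fun p _ => by
    by_contra! h
    obtain ⟨e, a, rfl, c⟩ := worst (I.lec p) (·.2 = p) (fun x h => by rw [h])
      (by simpa [np] using (Nat.zero_le _).trans_lt h)
    refine hf e (sub a) (.inl ?_)
    obtain ⟨u, v, d⟩ := List.append_of_mem a
    rw [d] at nd c
    rw [d] at h ⊢
    simp only [List.map_append, List.map_cons, List.nodup_append, List.nodup_cons, List.mem_map, List.mem_cons] at nd
    have := List.countP_mono_left (l := u) (q := fun x => x.2 = e.2 ∧ I.lp (I.lec e.2) x.1 e.1)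
      (p := fun x => x.2 = e.2) fun x hx f => by
        simp only [decide_eq_true_eq] at f ⊢
        exact ⟨f, (c x (by simp [hx]) f).resolve_left (nd.2.2 _ ⟨x, hx, rfl⟩ _ (.inl rfl))⟩
    have := List.countP_mono_left (l := v) (q := fun x => x.2 = e.2 ∧ I.lp (I.lec e.2) x.1 e.1)
      (p := fun x => x.2 = e.2) fun x hx f => by
        simp only [decide_eq_true_eq] at f ⊢
        exact ⟨f, (c x (by simp [hx]) f).resolve_left fun g => nd.2.1.1 ⟨x, hx, g⟩⟩
    simp only [np, List.countP_append, List.countP_cons, decide_true, if_true] at *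
    omega
  have wl : ∀ l, 0 < I.nl (best I E) l → ∃ e ∈ best I E, I.lec e.2 = l ∧
      ∀ x ∈ best I E, I.lec x.2 = I.lec e.2 → x.1 = e.1 ∨ I.lp (I.lec e.2) x.1 e.1 := fun l h => by
    obtain ⟨e, a, rfl, c⟩ := worst l (I.lec ·.2 = l) (fun _ h => h) (by simpa [nl] using h)
    exact ⟨e, a, rfl, c⟩
  have c2 : ∀ l < I.2.2.length, I.nl (best I E) l ≤ I.lcap l := fun l _ => by
    by_contra! h
    obtain ⟨e, a, rfl, c⟩ := wl l (by omega)
    exact hf e (sub a) (.inr (.inr ⟨c1, a, c, .inl h⟩))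
  have c3 := cnt hV hM hE hn hs c1 c2
  have le : ∀ p, np M p ≤ I.nl M (I.lec p) := fun p => List.countP_mono_left (by simp; intro _ _ _ h; rw [h])
  refine ⟨⟨fun e he => hE e (sub he), nd, c1, c2⟩, fun s p ⟨_, b2, b3, b4⟩ => ?_, fun p hp => ?_⟩
  · have w : wants I E s p := fun e he d => by
      obtain ⟨x, x1, x2⟩ := best_ex (I := I) he
      exact (b3 x x1 (x2.trans d)).trans_le (not_lt.1 (d ▸ x2 ▸ (mem_best.1 x1).2 e he x2.symm))
    have p1 := (hV.2 _ _ b2).1
    rcases b4 with ⟨a, b⟩ | ⟨a, b, x, x1, x2, x3⟩ | ⟨-, x, x1, rfl, x3⟩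
    · rcases (I.nl (best I E) (I.lec p)).eq_zero_or_pos with d | d
      · have := c3 _ (hV.1 p p1)
        have := le p
        have := ((blk hV hM b2 fun y hy => w y (hs hy)).1 (by omega)).1
        omega
      · obtain ⟨e, e1, e2, e3⟩ := wl _ d
        exact hf e (sub e1) (.inr (.inr ⟨c1, e1, e3, .inr ⟨c2, .inr ⟨s, acc_lt b2, p, b2, e2.symm, a, w,
          .inl (e2 ▸ b)⟩⟩⟩))
    · obtain ⟨e, e1, e2, e3⟩ := wl (I.lec p) (List.countP_pos_iff.2 ⟨x, x1, by simpa using x2⟩)
      refine hf e (sub e1) (.inr (.inr ⟨c1, e1, e3, .inr ⟨c2, .inr ⟨s, acc_lt b2, p, b2, e2.symm, a, w, .inr ?_⟩⟩⟩))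
      rw [← e2] at x3
      rcases e3 x x1 (x2.trans e2.symm) with d | d <;> rcases x3 with f | f
      · exact .inl (f.symm.trans d)
      · exact .inr (d ▸ f)
      · exact .inr (f ▸ d)
      · exact .inr (lt_trans f d)
    · exact hf x (sub x1) (.inr (.inl ⟨s, acc_lt b2, b2, w, x3⟩))
  · by_contra! h
    have := c3 _ (hV.1 p hp)
    have := le p
    have := hM.2.2 p hp
    obtain ⟨e, e1, e2, e3⟩ := wl (I.lec p) (by omega)
    exact hf e (sub e1) (.inr (.inr ⟨c1, e1, e3, .inr ⟨c2, .inl ⟨p, hp, e2.symm, h⟩⟩⟩))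

end

theorem complete (hV : I.Valid) (hM : I.Good M) : I.Good (best I ((stp I)^[(all I).length] (all I))) := by
  have hE : ∀ k, ∀ e ∈ (stp I)^[k] (all I), e.2 ∈ I.acc e.1 := fun k e he => mem_all.1 ((it_sub I _ k).subset he)
  have hn : ∀ k, ((stp I)^[k] (all I)).Nodup := fun k => (List.nodup_dedup _).sublist (it_sub I _ k)
  have hs : ∀ k, M ⊆ (stp I)^[k] (all I) := fun k => by
    induction k with
    | zero => exact fun e he => mem_all.2 (hM.1.1 e he)
    | succ k ih =>
      rw [Function.iterate_succ_apply']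
      exact fun e he => List.mem_filter.2 ⟨ih he, decide_eq_true (safe hV hM (hE k) (hn k) ih he)⟩
  refine fix_good hV hM (hE _) (hn _) (hs _) fun e he => ?_
  rw [← it_fix] at he
  exact of_decide_eq_true (List.mem_filter.1 he).2

end Pool.Agent.H.MP_ef40db_lc
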