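import Pool.Agent.Lib.lead.CXDefs

namespace Pool.Agent.H.MP_ef40db_lc

/-- preference lists of the students; lecturer, capacity and lower quota of each project; capacity and preference
list of each lecturer -/
abbrev Inst := List (List ℕ) × List (ℕ × ℕ × ℕ) × List (ℕ × List ℕ)

namespace Inst

variable (I : Inst)

def acc (s : ℕ) : List ℕ := I.1.getD s []
def lec (p : ℕ) : ℕ := (I.2.1.getD p (0, 0, 0)).1
def cap (p : ℕ) : ℕ := (I.2.1.getD p (0, 0, 0)).2.1
def low (p : ℕ) : ℕ := (I.2.1.getD p (0, 0, 0)).2.2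
def lcap (l : ℕ) : ℕ := (I.2.2.getD l (0, [])).1
def lpref (l : ℕ) : List ℕ := (I.2.2.getD l (0, [])).2

/-- acceptable projects exist, are offered by existing lecturers, and these rank the students concerned -/
def Valid : Prop :=
  (∀ p < I.2.1.length, I.lec p < I.2.2.length) ∧ ∀ s, ∀ p ∈ I.acc s, p < I.2.1.length ∧ s ∈ I.lpref (I.lec p)

/-- student `s` prefers project `p` to project `p'` -/
def sp (s p p' : ℕ) : Prop := (I.acc s).idxOf p < (I.acc s).idxOf p'

/-- lecturer `l` prefers student `s` to student `s'` -/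
def lp (l s s' : ℕ) : Prop := (I.lpref l).idxOf s < (I.lpref l).idxOf s'

/-- number of students assigned to project `p` -/
def np (M : List (ℕ × ℕ)) (p : ℕ) : ℕ := M.countP fun e => e.2 = p

/-- number of students assigned to projects of lecturer `l` -/
def nl (M : List (ℕ × ℕ)) (l : ℕ) : ℕ := M.countP fun e => I.lec e.2 = l

def Matching (M : List (ℕ × ℕ)) : Prop :=
  (∀ e ∈ M, e.2 ∈ I.acc e.1) ∧ (M.map Prod.fst).Nodup ∧ (∀ p < I.2.1.length, np M p ≤ I.cap p) ∧
    ∀ l < I.2.2.length, I.nl M l ≤ I.lcap l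

def Blocks (M : List (ℕ × ℕ)) (s p : ℕ) : Prop :=
  (s, p) ∉ M ∧ p ∈ I.acc s ∧ (∀ e ∈ M, e.1 = s → I.sp s p e.2) ∧
    ((np M p < I.cap p ∧ I.nl M (I.lec p) < I.lcap (I.lec p)) ∨
    (np M p < I.cap p ∧ I.nl M (I.lec p) = I.lcap (I.lec p) ∧
      ∃ e ∈ M, I.lec e.2 = I.lec p ∧ (e.1 = s ∨ I.lp (I.lec p) s e.1)) ∨
    (np M p = I.cap p ∧ ∃ e ∈ M, e.2 = p ∧ I.lp (I.lec p) s e.1))

/-- a stable matching respecting the lower quotas -/
def Good (M : List (ℕ × ℕ)) : Prop :=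
  I.Matching M ∧ (∀ s p, ¬I.Blocks M s p) ∧ ∀ p < I.2.1.length, I.low p ≤ np M p

end Inst

end Pool.Agent.H.MP_ef40db_lc
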